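import Pool.Agent.K3h43.DSL.Stm

/-! Brick N of the project `K3h43/DSL` (MP_ec2393_nt): an arithmetic inequality. -/

set_option autoImplicit false

namespace Pool.Agent.K3h7.DSL

open Pool.Agent.K3h43.DSL Finset

theorem card_De (e : ℕ) : (De e).card = ∑ b ∈ range (e + 1), (min b (e - b) + 1) := by
  rw [De, card_filter, sum_product]
  refine sum_congr rfl fun b hb => ?_
  rw [mem_range] at hb
  rw [← card_filter]
  have : (range (e + 1)).filter (fun c => c ≤ b ∧ b + c ≤ e) = range (min b (e - b) + 1) := by
    ext c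
    simp only [mem_filter, mem_range]
    omega
  rw [this, card_range]

theorem card_De_step (e : ℕ) : (De (e + 2)).card = (De e).card + e + 3 := by
  rw [card_De, card_De, sum_range_succ, sum_range_succ']
  have h : ∀ b ∈ range (e + 1), min (b + 1) (e + 2 - (b + 1)) + 1 = (min b (e - b) + 1) + 1 := by
    intro b hb
    rw [mem_range] at hb
    omega
  rw [sum_congr rfl h, sum_add_distrib, sum_const, card_range]
  simp
  omega

theorem card_De_six (e : ℕ) : (De (e + 6)).card = (De e).card + 3 * e + 15 := by
  have h1 := card_De_step e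
  have h2 := card_De_step (e + 2)
  have h3 := card_De_step (e + 4)
  simp only [add_assoc] at h1 h2 h3 ⊢
  norm_num at h1 h2 h3 ⊢
  omega

theorem card_Le (e : ℕ) :
    (Le e).card = ∑ b ∈ range (e + 1), (if 2 * b ≤ e then min b (e - 2 * b) + 1 else 0) := by
  rw [Le, card_filter, sum_product]
  refine sum_congr rfl fun b hb => ?_
  rw [mem_range] at hb
  rw [← card_filter]
  split_ifs with h
  · have : (range (e + 1)).filter (fun c => c ≤ b ∧ 2 * b + c ≤ e) =
        range (min b (e - 2 * b) + 1) := by
      ext c
      simp only [mem_filter, mem_range]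
      omega
    rw [this, card_range]
  · rw [card_eq_zero, filter_eq_empty_iff]
    intro c _
    omega

theorem card_Le_step (e : ℕ) : (Le (e + 3)).card = (Le e).card + (e + 5) / 2 := by
  rw [card_Le, card_Le, sum_range_succ']
  have h : ∀ b ∈ range (e + 3), (if 2 * (b + 1) ≤ e + 3 then
      min (b + 1) (e + 3 - 2 * (b + 1)) + 1 else 0) =
      (if 2 * b ≤ e then min b (e - 2 * b) + 1 else 0) + ((if 2 * b ≤ e then 1 else 0) +
        if 2 * b = e + 1 then 1 else 0) := by
    intro b _
    split_ifs <;> omega
  rw [sum_congr rfl h, sum_add_distrib, sum_add_distrib]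
  have h1 : ∑ b ∈ range (e + 3), (if 2 * b ≤ e then min b (e - 2 * b) + 1 else 0) =
      ∑ b ∈ range (e + 1), (if 2 * b ≤ e then min b (e - 2 * b) + 1 else 0) := by
    rw [sum_range_succ, sum_range_succ, if_neg (by omega), if_neg (by omega)]
    simp
  have h2 : ∑ b ∈ range (e + 3), (if 2 * b ≤ e then 1 else 0) = e / 2 + 1 := by
    rw [← card_filter]
    have : (range (e + 3)).filter (fun b => 2 * b ≤ e) = range (e / 2 + 1) := by
      ext b
      simp only [mem_filter, mem_range]
      omega
    rw [this, card_range]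
  have h3 : ∑ b ∈ range (e + 3), (if 2 * b = e + 1 then 1 else 0) = e % 2 := by
    rw [← card_filter]
    rcases Nat.even_or_odd e with he | he
    · obtain ⟨k, hk⟩ := he
      have : (range (e + 3)).filter (fun b => 2 * b = e + 1) = ∅ := by
        rw [filter_eq_empty_iff]
        intro b _
        omega
      rw [this, card_empty]
      omega
    · obtain ⟨k, hk⟩ := he
      have : (range (e + 3)).filter (fun b => 2 * b = e + 1) = {k + 1} := by
        ext b
        simp only [mem_filter, mem_range, mem_singleton]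
        omega
      rw [this, card_singleton]
      omega
  rw [h1, h2, h3]
  simp
  omega

theorem card_Le_six (e : ℕ) : (Le (e + 6)).card = (Le e).card + e + 6 := by
  have h1 := card_Le_step e
  have h2 := card_Le_step (e + 3)
  simp only [add_assoc] at h1 h2 ⊢
  norm_num at h1 h2 ⊢
  omega

theorem base : ∀ e ∈ Finset.Icc 1 6, (De e).card ≤ ((2 * e) ^ 2 - 1) / 48 + 2 * (Le e).card := by
  decide

theorem arith (e : ℕ) (he : 1 ≤ e) :
    (De e).card ≤ ((2 * e) ^ 2 - 1) / 48 + 2 * (Le e).card := by
  induction e using Nat.strong_induction_on with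
  | _ e ih =>
    by_cases h6 : e ≤ 6
    · exact base e (by rw [mem_Icc]; omega)
    · obtain ⟨k, rfl⟩ : ∃ k, e = k + 6 := ⟨e - 6, by omega⟩
      have hk := ih k (by omega) (by omega)
      rw [card_De_six, card_Le_six]
      have h : ((2 * (k + 6)) ^ 2 - 1) / 48 = ((2 * k) ^ 2 - 1) / 48 + k + 3 := by
        have h1 : (2 * (k + 6)) ^ 2 - 1 = ((2 * k) ^ 2 - 1) + 48 * (k + 3) := by
          have h2 : (2 * (k + 6)) ^ 2 = (2 * k) ^ 2 + 48 * (k + 3) := by ring
          have h3 : 1 ≤ (2 * k) ^ 2 := Nat.one_le_iff_ne_zero.2 (pow_ne_zero _ (by omega))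
          omega
        rw [h1, Nat.add_mul_div_left _ _ (by norm_num)]
        ring
      omega

/-- Brick N. -/
theorem t_Arith : Arith := arith

end Pool.Agent.K3h7.DSL
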