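import Pool.Agent.K3h43.DSL.Stm

/-! Brick D of the project `K3h43/DSL` (MP_ec2393_nt): the dimension of the dihedral invariants. -/

set_option autoImplicit false

namespace Pool.Agent.K3h7.DSL

open Pool.Agent.K3h43.DSL MvPolynomial

/-- the exponent `(a, b, c)` -/
noncomputable def mo (a b c : ℕ) : Fin 3 →₀ ℕ := Finsupp.equivFunOnFinite.symm ![a, b, c]

theorem mo_surj (m : Fin 3 →₀ ℕ) : m = mo (m 0) (m 1) (m 2) := by
  ext i
  fin_cases i <;> rfl

theorem X_mo (a b c : ℕ) : (monomial (mo a b c) (1 : ℚ) : R) = X 0 ^ a * X 1 ^ b * X 2 ^ c := by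
  rw [monomial_eq, C_1, one_mul, Finsupp.prod_fintype _ _ (fun i => pow_zero _)]
  rw [Fin.prod_univ_three]
  rfl

theorem mo_inj {a b c a' b' c' : ℕ} (h : mo a b c = mo a' b' c') : a = a' ∧ b = b' ∧ c = c' := by
  refine ⟨?_, ?_, ?_⟩
  · exact DFunLike.congr_fun h 0
  · exact DFunLike.congr_fun h 1
  · exact DFunLike.congr_fun h 2

/-- A substitution which maps `X^(a,b,c)` to `s(a,b,c) X^(a,c,b)`. -/
theorem coeff_swap (φ : R →ₐ[ℚ] R) (s : ℕ → ℕ → ℕ → ℚ)
    (hφ : ∀ a b c, φ (monomial (mo a b c) 1) = C (s a b c) * monomial (mo a c b) 1)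
    (F : R) (a b c : ℕ) : coeff (mo a b c) (φ F) = s a c b * coeff (mo a c b) F := by
  induction F using MvPolynomial.induction_on' with
  | monomial u r =>
    have h1 : (monomial u r : R) = C r * monomial (mo (u 0) (u 1) (u 2)) 1 := by
      rw [C_mul_monomial, mul_one, ← mo_surj u]
    have h2 : φ (C r) = C r := φ.commutes r
    rw [h1, map_mul, hφ, h2, ← mul_assoc, ← C_mul, coeff_C_mul, coeff_C_mul, coeff_monomial,
      coeff_monomial]
    by_cases h : mo (u 0) (u 1) (u 2) = mo a c b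
    · obtain ⟨e1, e2, e3⟩ := mo_inj h
      rw [e1, e2, e3, if_pos rfl, if_pos rfl]
      ring
    · rw [if_neg, if_neg h]
      · ring
      · intro h'
        obtain ⟨e1, e2, e3⟩ := mo_inj h'
        exact h (by rw [e1, e2, e3])
  | add p q hp hq => rw [map_add, coeff_add, coeff_add, hp, hq]; ring

theorem sb_mo (x y z : R) (a b c : ℕ) :
    sb x y z (monomial (mo a b c) 1) = x ^ a * y ^ b * z ^ c := by
  rw [X_mo, map_mul, map_mul, map_pow, map_pow, map_pow]
  simp [sb]

theorem coeff_cyc (F : R) (a b c : ℕ) :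
    coeff (mo a b c) (sb (-X 0) (X 2) (-X 1) F) = (-1) ^ (a + b) * coeff (mo a c b) F := by
  have h := coeff_swap (sb (-X 0) (X 2) (-X 1)) (fun a _ c => (-1) ^ (a + c)) ?_ F a b c
  · simpa using h
  · intro a b c
    have hC : (C ((-1 : ℚ) ^ (a + c)) : R) = (-1) ^ (a + c) := by
      rw [map_pow, map_neg, map_one]
    rw [sb_mo, X_mo, neg_pow (X 0 : R), neg_pow (X 1 : R), hC]
    ring

theorem coeff_rev (F : R) (a b c : ℕ) :
    coeff (mo a b c) (sb (-X 0) (-X 2) (-X 1) F) = (-1) ^ (a + b + c) * coeff (mo a c b) F := by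
  have h := coeff_swap (sb (-X 0) (-X 2) (-X 1)) (fun a b c => (-1) ^ (a + c + b)) ?_ F a b c
  · simpa using h
  · intro a b c
    have hC : (C ((-1 : ℚ) ^ (a + c + b)) : R) = (-1) ^ (a + c + b) := by
      rw [map_pow, map_neg, map_one]
    rw [sb_mo, X_mo, neg_pow (X 0 : R), neg_pow (X 1 : R), neg_pow (X 2 : R), hC]
    ring

theorem ku_cyc (Q : R) : ku (sb (X 1) (X 2) (-(X 0 + X 1 + X 2)) Q) =
    sb (-X 0) (X 2) (-X 1) (ku Q) := by
  have h : ku.comp (sb (X 1) (X 2) (-(X 0 + X 1 + X 2))) = (sb (-X 0) (X 2) (-X 1)).comp ku := by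
    apply algHom_ext
    intro i
    fin_cases i
    · simp [ku, sb]; ring
    · simp [ku, sb]; ring
    · simp [ku, sb]; ring
  exact DFunLike.congr_fun h Q

theorem ku_rev (Q : R) : ku (sb (-X 2) (-X 1) (-X 0) Q) = sb (-X 0) (-X 2) (-X 1) (ku Q) := by
  have h : ku.comp (sb (-X 2) (-X 1) (-X 0)) = (sb (-X 0) (-X 2) (-X 1)).comp ku := by
    apply algHom_ext
    intro i
    fin_cases i
    · simp [ku, sb]; ring
    · simp [ku, sb]; ring
    · simp [ku, sb]; ring
  exact DFunLike.congr_fun h Q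

theorem ku_inj (Q : R) (h : ku Q = 0) : Q = 0 := by
  have h2 : (C (2⁻¹) : R) * 2 = 1 := by
    rw [show (2 : R) = C 2 from (map_ofNat C 2).symm, ← C_mul]
    norm_num
  have h1 : (sb (X 0 + X 2) (X 0 + X 1) (X 1 + X 2)).comp ku = AlgHom.id ℚ R := by
    apply algHom_ext
    intro i
    fin_cases i
    · simp [ku, sb]
      linear_combination (X 0 : R) * h2
    · simp [ku, sb]
      linear_combination (X 1 : R) * h2
    · simp [ku, sb]
      linear_combination (X 2 : R) * h2
  have h3 := DFunLike.congr_fun h1 Q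
  simp only [AlgHom.comp_apply, h, map_zero, AlgHom.id_apply] at h3
  exact h3.symm

theorem ku_hom {Q : R} {d : ℕ} (h : Q.IsHomogeneous d) : (ku Q).IsHomogeneous d := by
  have h1 : (ku Q).IsHomogeneous (1 * d) := by
    refine h.aeval _ ?_
    intro i
    have hX : ∀ j : Fin 3, (X j : R).IsHomogeneous 1 := fun j => isHomogeneous_X _ _
    fin_cases i
    · exact (((hX 0).add (hX 1)).sub (hX 2)).C_mul _
    · exact (((hX 1).add (hX 2)).sub (hX 0)).C_mul _
    · exact (((hX 0).add (hX 2)).sub (hX 1)).C_mul _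
  rwa [one_mul] at h1

/-- the coefficients -/
noncomputable def Th (e : ℕ) : D (2 * e) →ₗ[ℚ] (De e → ℚ) :=
  LinearMap.pi fun x => (lcoeff ℚ (mo (2 * e - 2 * x.1.1 - 2 * x.1.2) (2 * x.1.1) (2 * x.1.2))) ∘ₗ
    ku.toLinearMap ∘ₗ (D (2 * e)).subtype

theorem Th_inj (e : ℕ) : Function.Injective (Th e) := by
  rw [← LinearMap.ker_eq_bot, LinearMap.ker_eq_bot']
  rintro ⟨Q, hQ1, hQ2, hQ3⟩ h
  have hF : (ku Q).IsHomogeneous (2 * e) := ku_hom hQ1
  have hc : sb (-X 0) (X 2) (-X 1) (ku Q) = ku Q := by rw [← ku_cyc, hQ2]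
  have hr : sb (-X 0) (-X 2) (-X 1) (ku Q) = ku Q := by rw [← ku_rev, hQ3]
  have c1 : ∀ a b c, coeff (mo a b c) (ku Q) = (-1) ^ (a + b) * coeff (mo a c b) (ku Q) :=
    fun a b c => by rw [← coeff_cyc, hc]
  have c2 : ∀ a b c, coeff (mo a b c) (ku Q) = (-1) ^ (a + b + c) * coeff (mo a c b) (ku Q) :=
    fun a b c => by rw [← coeff_rev, hr]
  have hdeg : ∀ a b c, coeff (mo a b c) (ku Q) ≠ 0 → a + b + c = 2 * e := by
    intro a b c hne
    have := hF hne
    rw [Finsupp.weight_apply, Finsupp.sum_fintype _ _ (fun i => by simp), Fin.sum_univ_three] at this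
    simpa [mo] using this
  have hsw : ∀ a b c, coeff (mo a b c) (ku Q) = coeff (mo a c b) (ku Q) := by
    intro a b c
    by_cases h0 : coeff (mo a b c) (ku Q) = 0
    · rw [h0]
      have := c2 a b c
      rw [h0] at this
      rcases mul_eq_zero.1 this.symm with h1 | h1
      · exact absurd h1 (pow_ne_zero _ (by norm_num))
      · exact h1.symm
    · have h1 := c2 a b c
      rw [hdeg a b c h0, Even.neg_one_pow ⟨e, by ring⟩, one_mul] at h1
      exact h1
  have hev : ∀ a b c, coeff (mo a b c) (ku Q) ≠ 0 → Even (a + b) := by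
    intro a b c h0
    by_contra hodd
    rw [Nat.not_even_iff_odd] at hodd
    have h1 := c1 a b c
    rw [hodd.neg_one_pow, ← hsw a b c] at h1
    apply h0
    linarith
  have hz : ku Q = 0 := by
    ext m
    rw [mo_surj m, coeff_zero]
    generalize m 0 = a
    generalize m 1 = b
    generalize m 2 = c
    by_contra h0
    have hd := hdeg a b c h0
    have e1 := hev a b c h0
    have e2 := hev a c b (by rwa [← hsw a b c])
    obtain ⟨b', rfl⟩ : Even b := by
      rw [Nat.even_iff] at e1 e2 ⊢; omega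
    obtain ⟨c', rfl⟩ : Even c := by
      rw [Nat.even_iff] at e1 e2 ⊢; omega
    have key : ∀ b c : ℕ, c ≤ b → b + c ≤ e →
        coeff (mo (2 * e - 2 * b - 2 * c) (2 * b) (2 * c)) (ku Q) = 0 := by
      intro b c hcb hbc
      have hm : (b, c) ∈ De e := by
        simp only [De, Finset.mem_filter, Finset.mem_product, Finset.mem_range]
        omega
      have := congrFun h ⟨(b, c), hm⟩
      exact this
    rcases le_total c' b' with hle | hle
    · have := key b' c' hle (by omega)
      apply h0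
      rw [show a = 2 * e - 2 * b' - 2 * c' by omega, show b' + b' = 2 * b' by ring,
        show c' + c' = 2 * c' by ring]
      exact this
    · have := key c' b' hle (by omega)
      apply h0
      rw [hsw, show a = 2 * e - 2 * c' - 2 * b' by omega, show b' + b' = 2 * b' by ring,
        show c' + c' = 2 * c' by ring]
      exact this
  exact Subtype.ext (ku_inj Q hz)

/-- Brick D. -/
theorem t_DimD : DimD := by
  intro e
  have : Module.Finite ℚ (D (2 * e)) := Module.Finite.of_injective (Th e) (Th_inj e)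
  refine ⟨this, ?_⟩
  have h := LinearMap.finrank_le_finrank_of_injective (Th_inj e)
  rw [Module.finrank_fintype_fun_eq_card, Fintype.card_coe] at h
  exact h

end Pool.Agent.K3h7.DSL
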